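import Pool.Agent.R958.SN

/-!
# Torsion values of the sections of an abelian scheme near a given point of the base

Uniform boundedness of torsion is equivalent to a statement on abelian schemes `A → S` and sections `σ` of infinite order:
for every `d` the points `s` of `S` of degree at most `d` over `K` at which `σ(s)` is a torsion point are not Zariski
dense. Here the base is an open subset of an affine space of any dimension, the abelian scheme may have any relative
dimension, and we look at all nontrivial combinations of given independent sections at the same time. We show that for all
points `ξ` of the base outside a set of Hausdorff dimension at most `2 [K : ℚ] (dim S - 1) / τ` no such combination (with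
coefficients at most `T ^ k`) is a torsion point (of order at most `T ^ k`) at any `K`-rational point of height at most `T`
at distance at most `C T ^ (-τ)` from `ξ`, if `T` is large.

The definitions (`Pool.Agent.R349.MVB`, `Pool.Agent.Y120`):
* `Sect X G H R` : analytic data of the abelian scheme over the open set `U` of `ℂ ^ X`, of relative dimension `|G|`, and of
  sections indexed by `R`: the periods `ω ρ j`, which generate lattices of rank `|H|`, the logarithms `l ρ κ` of the
  sections, the monodromy `Γ`, whose elements `γ` act by `ω ↦ ω γ.1`, `l ↦ l + ω γ.2` and preserve all polynomial relations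
  over `ℂ[x]` between these functions on `U`; `RegularM`: the functions in the field generated by the coordinates, `ω` and
  `l` which are algebraic over `ℂ(x)` are rational (this holds after a finite cover of the base); `indep`: no rational
  combination of the sections, except `0`, has a cocycle `γ.2 a` which is a coboundary `γ.1 m - m` (if there is no constant
  part, this means by Manin's theorem of the kernel that the sections are independent);
* `S.Lat x` : the lattice, `S.val κ x` : the value of the section `κ` at `x`, a point of the torus `ℂ ^ G / S.Lat x`;
* `Y120.HtLe K T a` : `a` is a quotient of integers of `K` all of whose conjugates are at most `T`.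

Small balls of radius `T ^ (-η)` are treated in the hand-in `TorsionInSmallBalls`.
-/

set_option autoImplicit false

namespace Pool.Agent.Results.MP_160b6c_nt.NearEveryPoint

open Pool.Agent Pool.Agent.Y890.MV Pool.Agent.R349.MVB

/-- Let `S` be an abelian scheme with sections as above, over an open subset `U` of `ℂ ^ X`, `K` a number field with an
embedding `io` in `ℂ`, and `τ > 0`. There is a set `E` of Hausdorff dimension at most `2 [K : ℚ] (|X| - 1) / τ` such that
for all `ξ` in `U` outside `E`, all `k` and `C`, all large `T`, and all points `s` with coordinates in `K` of height at
most `T` and `‖ξ j - s j‖ ≤ C T ^ (-τ)` for all `j`: the values at `s` of the combinations of the sections with integral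
coefficients at most `T ^ k`, not all `0`, are not torsion points of order at most `T ^ k` (their order is infinite, that
is `addOrderOf` is `0`, or greater than `T ^ k`). -/
theorem result (X G H R : Type) [Fintype X] [DecidableEq X] [Nonempty X] [Fintype G] [DecidableEq G] [Fintype H]
    [DecidableEq H] [Fintype R] [DecidableEq R] (S : Sect X G H R) (K : Type) [Field K] [NumberField K]
    (io : K →+* ℂ) (τ : ℝ) (hτ : 0 < τ) :
    ∃ E : Set (X → ℂ),
      dimH E ≤ ENNReal.ofReal (2 * (Module.finrank ℚ K : ℝ) * ((Fintype.card X : ℝ) - 1) / τ) ∧
      ∀ ξ ∈ S.U, ξ ∉ E → ∀ (k : ℕ) (C : ℝ), ∃ T₁ : ℝ, ∀ T : ℝ, T₁ ≤ T → ∀ s : X → K,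
        (∀ j, Y120.HtLe K T (s j) ∧ ‖ξ j - io (s j)‖ ≤ C * T ^ (-τ)) →
          ∀ a : R → ℤ, a ≠ 0 → (∀ κ, |(a κ : ℝ)| ≤ T ^ k) →
            addOrderOf (∑ κ, a κ • S.val κ fun j => io (s j)) = 0 ∨
              T ^ k < addOrderOf (∑ κ, a κ • S.val κ fun j => io (s j)) :=
  R958.SN.tors S K io τ hτ

end Pool.Agent.Results.MP_160b6c_nt.NearEveryPoint
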