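import Pool.Agent.R349.Sect

/-!
# Torsion values of the sections of an abelian scheme: small balls of the base

Uniform boundedness of torsion is equivalent to a statement on abelian schemes `A → S` and sections `σ` of infinite order:
for every `d` the points `s` of `S` of degree at most `d` over `K` at which `σ(s)` is a torsion point are not Zariski
dense. Here the base is an open subset of an affine space of any dimension (a general base is a finite cover of such a
set, and restriction of scalars leads to this case), the abelian scheme may have any relative dimension, and we look at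
all nontrivial combinations of given independent sections at the same time. We show that in each
ball of radius `T ^ (-η)`, for every `η > 0`, the points of height at most `T` of degree at most `k` at which such a
combination is a torsion point of order at most `T ^ k` lie on a number of hypersurfaces, of a degree, which do not depend
on `T`, the ball and the number field.

The definitions (`Pool.Agent.R349.MVB`, `Pool.Agent.Y890.MV`, `Pool.Agent.Y124`, `Pool.Agent.Y120`):
* `Sect X G H R` : analytic data of the abelian scheme over the open set `U` of `ℂ ^ X`, of relative dimension `|G|`, and of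
  sections indexed by `R`: the periods `ω ρ j`, which generate lattices of rank `|H|`, the logarithms `l ρ κ` of the
  sections, the monodromy `Γ`, whose elements `γ` act by `ω ↦ ω γ.1`, `l ↦ l + ω γ.2` and preserve all polynomial relations
  over `ℂ[x]` between these functions on `U`; `RegularM`: the functions in the field generated by the coordinates, `ω` and
  `l` which are algebraic over `ℂ(x)` are rational (this holds after a finite cover of the base); `indep`: no rational
  combination of the sections, except `0`, has a cocycle `γ.2 a` which is a coboundary `γ.1 m - m` (if there is no constant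
  part, this means by Manin's theorem of the kernel that the sections are independent);
* `S.Lat x` : the lattice, `S.val κ x` : the value of the section `κ` at `x`, a point of the torus `ℂ ^ G / S.Lat x`;
* `Y120.HtLe K T a` : `a` is a quotient of integers of `K` all of whose conjugates are at most `T`;
* `InnerM U k` : the points of norm at most `k` at distance at least `1 / k` from the complement of `U`;
* `Cov D m S` : `S` is covered by at most `m` hypersurfaces of degree at most `D`.
-/

set_option autoImplicit false

namespace Pool.Agent.Results.MP_160b6c_nt.TorsionInSmallBalls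

open Pool.Agent Pool.Agent.Y890.MV Pool.Agent.R349.MVB

/-- the points of `InnerM S.U k` over `K` of height at most `T` at which some nontrivial integral combination of the
sections, with coefficients at most `T ^ k`, is a torsion point of order at most `T ^ k` -/
def Torsion {X G H R : Type} [Fintype X] [Fintype H] [Fintype R] (S : Sect X G H R) (k : ℕ) (K : Type) [Field K]
    [NumberField K] (io : K →+* ℂ) (T : ℝ) : Set (X → K) :=
  {s | (∀ j, Y120.HtLe K T (s j)) ∧ (fun j => io (s j)) ∈ InnerM S.U k ∧ ∃ a : R → ℤ, a ≠ 0 ∧
    (∀ κ, |(a κ : ℝ)| ≤ T ^ k) ∧ 0 < addOrderOf (∑ κ, a κ • S.val κ fun j => io (s j)) ∧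
    (addOrderOf (∑ κ, a κ • S.val κ fun j => io (s j)) : ℝ) ≤ T ^ k}

/-- Let `S` be an abelian scheme with sections as above. For all `k` and `η > 0` there are `C` and `T₀` such that for all
number fields `K` of degree at most `k`, embedded in `ℂ`, all `T ≥ T₀` and all points `t₀` of `ℂ ^ X`: the points in
`Torsion` at distance at most `T ^ (-η)` from `t₀` lie on at most `C` hypersurfaces of degree at most `C`; hence for all
finite subsets `B j` of `K` at most `C ∑_j ∏_{i ≠ j} |B i|` of them have coordinates in the sets `B j`, and at most `C` if
there is one parameter. -/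
theorem result (X G H R : Type) [Fintype X] [DecidableEq X] [Nonempty X] [Fintype G] [DecidableEq G] [Fintype H]
    [DecidableEq H] [Fintype R] [DecidableEq R] (S : Sect X G H R) (k : ℕ) (η : ℝ) (hη : 0 < η) :
    ∃ (C : ℕ) (T₀ : ℝ), ∀ (K : Type) [Field K] [NumberField K], Module.finrank ℚ K ≤ k →
      ∀ (io : K →+* ℂ) (T : ℝ), T₀ ≤ T → ∀ t₀ : X → ℂ,
        Y124.Cov C C {t | ‖t - t₀‖ ≤ T ^ (-η) ∧ ∃ s ∈ Torsion S k K io T, t = fun j => io (s j)} ∧
        ∀ (B : X → Finset K) (E : Finset (X → K)), (∀ s ∈ E, (∀ j, s j ∈ B j) ∧ s ∈ Torsion S k K io T ∧
            ‖(fun j => io (s j)) - t₀‖ ≤ T ^ (-η)) →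
          E.card ≤ C * ∑ j, ∏ i ∈ Finset.univ.erase j, (B i).card := by
  obtain ⟨C, T₀, H⟩ := S.tors k η hη
  refine ⟨C + C * C, T₀, fun K _ _ hK io T hT t₀ => ?_⟩
  have h2 : Y124.Cov C C {t | ‖t - t₀‖ ≤ T ^ (-η) ∧ ∃ s ∈ Torsion S k K io T, t = fun j => io (s j)} := by
    refine (H K hK io T hT t₀).mono le_rfl le_rfl ?_
    rintro t ⟨h1, s, ⟨h3, h4, h5⟩, rfl⟩
    exact ⟨h1, s, h3, rfl, h4, h5⟩
  refine ⟨h2.mono (by omega) (by omega) (Set.Subset.refl _), fun B E hE => ?_⟩
  refine (R349.MVB.cov_prod io B _ h2 E fun e he => ?_).trans (Nat.mul_le_mul_right _ (by omega))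
  obtain ⟨h3, h4, h5⟩ := hE e he
  exact ⟨h3, h5, e, h4, rfl⟩

end Pool.Agent.Results.MP_160b6c_nt.TorsionInSmallBalls
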